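import Pool.Agent.Helper69.QC.St

/-!
# Project QD, part C, module RRB: elementary facts about `rr t = tanh (t/2)`
-/

namespace Pool.Agent.Helper29.QC

open Pool.Agent.Helper69.QC

private theorem rr_eq (t : ℝ) : rr t = (Real.exp t - 1) / (Real.exp t + 1) := by
  have h : Real.exp t = Real.exp (t / 2) * Real.exp (t / 2) := by
    rw [← Real.exp_add]
    congr 1
    ring
  unfold rr
  rw [Real.tanh_eq_sinh_div_cosh, Real.sinh_eq, Real.cosh_eq, Real.exp_neg, h]
  have h0 := Real.exp_pos (t / 2)
  field_simp

private theorem one_sub (t : ℝ) : 1 - rr t = 2 / (Real.exp t + 1) := by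
  have h0 := Real.exp_pos t
  rw [rr_eq]
  field_simp
  ring

theorem cRRB : St_RRB := by
  refine ⟨?_, ?_, ?_, ?_, one_sub, ?_, ?_, ?_⟩
  · intro t ht
    have h0 := Real.exp_pos t
    have h1 : 1 ≤ Real.exp t := Real.one_le_exp ht
    rw [rr_eq]
    exact div_nonneg (by linarith) (by linarith)
  · intro t
    have h0 := Real.exp_pos t
    have h1 := one_sub t
    have h2 : 0 < 2 / (Real.exp t + 1) := by positivity
    linarith
  · intro s t hst
    have h0 := Real.exp_pos s
    have h1 : Real.exp s < Real.exp t := Real.exp_lt_exp.2 hst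
    have h2 : 2 / (Real.exp t + 1) < 2 / (Real.exp s + 1) := by
      apply div_lt_div_of_pos_left (by norm_num) (by linarith)
      linarith
    have h3 := one_sub s
    have h4 := one_sub t
    linarith
  · intro t
    have h0 := Real.exp_pos t
    rw [one_sub, rr_eq]
    field_simp
    ring
  · intro s t _ _
    have h0 := Real.exp_pos s
    have h1 := Real.exp_pos t
    have h2 : 0 < Real.exp s * Real.exp t := mul_pos h0 h1
    rw [rr_eq, rr_eq, rr_eq, Real.exp_add]
    have h3 : 1 + (Real.exp s - 1) / (Real.exp s + 1) * ((Real.exp t - 1) / (Real.exp t + 1)) =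
        2 * (Real.exp s * Real.exp t + 1) / ((Real.exp s + 1) * (Real.exp t + 1)) := by
      field_simp
      ring
    rw [h3]
    field_simp
    ring
  · intro r hr hr1
    have h1 : 0 < 1 - r := by linarith
    have h2 : 1 ≤ (1 + r) / (1 - r) := by
      rw [le_div_iff₀ h1]
      linarith
    refine ⟨Real.log ((1 + r) / (1 - r)), Real.log_nonneg h2, ?_⟩
    rw [rr_eq, Real.exp_log (by linarith)]
    have h3 : (1 + r) / (1 - r) + 1 = 2 / (1 - r) := by
      field_simp
      ring
    rw [h3]
    field_simp
    ring
  · rw [rr_eq, Real.exp_zero]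
    norm_num

end Pool.Agent.Helper29.QC
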